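import Mathlib

set_option autoImplicit false

namespace Pool.Agent.Results.MP_3ec6a8_co.Disproof

/-- A rainbow matching: one edge from each graph, pairwise vertex-disjoint. -/
def HasRainbowMatching {V : Type} {k : ℕ} (F : Fin k → SimpleGraph V) : Prop :=
  ∃ e : Fin k → Sym2 V, (∀ i, e i ∈ (F i).edgeSet) ∧
    ∀ i j, i ≠ j → ∀ v, ¬ (v ∈ e i ∧ v ∈ e j)

def adj (i : Fin 4) (u v : Fin 8) : Bool :=
  decide (u.val % 2 ≠ v.val % 2) && (decide (u.val / 4 = v.val / 4) != decide (i = 3))

def F (i : Fin 4) : SimpleGraph (Fin 8) where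
  Adj u v := adj i u v = true
  symm := ⟨by revert i; decide⟩
  loopless := ⟨by revert i; decide⟩

instance (i : Fin 4) : DecidableRel (F i).Adj := fun u v => by unfold F; infer_instance

def D (a b c d : Fin 8) : Prop := a ≠ c ∧ a ≠ d ∧ b ≠ c ∧ b ≠ d

instance (a b c d : Fin 8) : Decidable (D a b c d) := by unfold D; infer_instance

set_option synthInstance.maxSize 4000 in
lemma key : ∀ a b, adj 3 a b = true → ∀ c d, adj 0 c d = true → D a b c d →
    ∀ e f, adj 1 e f = true → D a b e f → D c d e f →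
    ∀ g h, ¬ (adj 2 g h = true ∧ D a b g h ∧ D c d g h ∧ D e f g h) := by
  decide +kernel

lemma disj (a b c d : Fin 8) (h : ∀ v, ¬ (v ∈ s(a, b) ∧ v ∈ s(c, d))) : D a b c d := by
  refine ⟨?_, ?_, ?_, ?_⟩ <;> intro e
  · exact h a ⟨by simp, by simp [e]⟩
  · exact h a ⟨by simp, by simp [e]⟩
  · exact h b ⟨by simp, by simp [e]⟩
  · exact h b ⟨by simp, by simp [e]⟩

theorem result : ∃ (d k : ℕ) (V : Type) (_ : Fintype V) (F : Fin k → SimpleGraph V)
    (side : V → Bool), 1 < d ∧ 1 ≤ k ∧
      (∀ i u v, (F i).Adj u v → side u ≠ side v) ∧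
      (∀ i v, ((F i).neighborSet v).ncard ≤ d) ∧
      (∀ i, (k - 1) * d < (F i).edgeSet.ncard) ∧
      ¬ HasRainbowMatching F := by
  refine ⟨2, 4, Fin 8, inferInstance, F, fun v => decide (v.val % 2 = 0), by norm_num,
    by norm_num, by decide, ?_, ?_, ?_⟩
  · intro i v
    rw [← SimpleGraph.coe_neighborFinset, Set.ncard_coe_finset]
    revert i v
    decide +kernel
  · intro i
    rw [← SimpleGraph.coe_edgeFinset, Set.ncard_coe_finset]
    revert i
    decide +kernel
  · rintro ⟨e, h1, h2⟩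
    have hx : ∀ i, ∃ a b, e i = s(a, b) := fun i => by
      induction e i using Sym2.ind with
      | _ a b => exact ⟨a, b, rfl⟩
    choose a b hab using hx
    have ha : ∀ i, adj i (a i) (b i) = true := fun i => by
      have := h1 i
      rw [hab i] at this
      exact this
    have hd : ∀ i j, i ≠ j → D (a i) (b i) (a j) (b j) := fun i j hij => by
      apply disj
      rw [← hab i, ← hab j]
      exact h2 i j hij
    exact key _ _ (ha 3) _ _ (ha 0) (hd 3 0 (by decide)) _ _ (ha 1) (hd 3 1 (by decide))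
      (hd 0 1 (by decide)) _ _
      ⟨ha 2, hd 3 2 (by decide), hd 0 2 (by decide), hd 1 2 (by decide)⟩

end Pool.Agent.Results.MP_3ec6a8_co.Disproof
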